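import Pool.Agent.H64.GG.TA

set_option autoImplicit false

/-!
# Row CIP (board rgd_modules): the value at the Frobenius point
-/

namespace Pool.Agent.H46.GG

open NumberField Height Finset Polynomial Pool.Agent.H24.RD Pool.Agent.H23.RDD Pool.Agent.H29.RQ
  Pool.Agent.H29.SX Pool.Agent.H29.LG Pool.Agent.H64.GG

section na

variable {M : Type} [Field M] {w : AbsoluteValue M ℝ}

theorem na_add (hna : IsNonarchimedean w) {x y : M} {c : ℝ} (hx : w x ≤ c) (hy : w y ≤ c) :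
    w (x + y) ≤ c := (hna x y).trans (max_le hx hy)

theorem na_sub (hna : IsNonarchimedean w) {x y : M} {c : ℝ} (hx : w x ≤ c) (hy : w y ≤ c) :
    w (x - y) ≤ c := by
  rw [sub_eq_add_neg]
  exact na_add hna hx (by rwa [AbsoluteValue.map_neg])

theorem na_sum (hna : IsNonarchimedean w) {ι : Type*} (s : Finset ι) (f : ι → M) {c : ℝ}
    (hc : 0 ≤ c) (h : ∀ i ∈ s, w (f i) ≤ c) : w (∑ i ∈ s, f i) ≤ c := by
  classical
  induction s using Finset.induction_on with
  | empty => simpa using hc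
  | insert i s hi ih =>
    rw [Finset.sum_insert hi]
    exact na_add hna (h i (Finset.mem_insert_self i s))
      (ih fun j hj => h j (Finset.mem_insert_of_mem hj))

theorem na_nat (hna : IsNonarchimedean w) (n : ℕ) : w (n : M) ≤ 1 := by
  induction n with
  | zero => simp
  | succ n ih =>
    rw [Nat.cast_succ]
    exact na_add hna ih (by rw [map_one])

theorem na_int (hna : IsNonarchimedean w) (n : ℤ) : w (n : M) ≤ 1 := by
  obtain ⟨a, rfl | rfl⟩ := Int.eq_nat_or_neg n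
  · exact_mod_cast na_nat hna a
  · rw [Int.cast_neg, AbsoluteValue.map_neg]
    exact_mod_cast na_nat hna a

theorem na_eq (hna : IsNonarchimedean w) {x y : M} (h : w (x - y) < w y) : w x = w y := by
  apply le_antisymm
  · have h1 : w ((x - y) + y) ≤ w y := na_add hna h.le le_rfl
    rwa [sub_add_cancel] at h1
  · by_contra hcon
    have h1 : w (x - (x - y)) ≤ max (w x) (w (x - y)) :=
      na_sub hna (le_max_left _ _) (le_max_right _ _)
    rw [sub_sub_cancel] at h1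
    exact absurd h1 (not_le.2 (max_lt (not_le.1 hcon) h))

theorem na_unit (hna : IsNonarchimedean w) {p : ℕ} (hp : p.Prime) (hwp : w (p : M) < 1) {m : ℕ}
    (hm : ¬ p ∣ m) : w (m : M) = 1 := by
  refine le_antisymm (na_nat hna m) ?_
  by_contra hcon
  have hco : Nat.gcd m p = 1 := ((Nat.Prime.coprime_iff_not_dvd hp).2 hm).symm
  have h1 : (1 : ℤ) = m * Nat.gcdA m p + p * Nat.gcdB m p := by
    have h2 := Nat.gcd_eq_gcd_ab m p
    rwa [hco, Nat.cast_one] at h2
  have h2 : (1 : M) = m * (Nat.gcdA m p : ℤ) + p * (Nat.gcdB m p : ℤ) := by exact_mod_cast congrArg (Int.cast : ℤ → M) h1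
  have h3 : w (1 : M) ≤ max (w (m : M)) (w (p : M)) := by
    rw [h2]
    refine na_add hna ?_ ?_
    · rw [map_mul]
      exact (mul_le_of_le_one_right (w.nonneg _) (na_int hna _)).trans (le_max_left _ _)
    · rw [map_mul]
      exact (mul_le_of_le_one_right (w.nonneg _) (na_int hna _)).trans (le_max_right _ _)
  rw [map_one] at h3
  exact absurd h3 (not_le.2 (max_lt (not_le.1 hcon) hwp))

theorem na_rat [CharZero M] (hna : IsNonarchimedean w) {p : ℕ} (hp : p.Prime)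
    (hwp : w (p : M) < 1) {q : ℚ} (hq0 : q ≠ 0) (hq : padicValRat p q = 0) :
    w ((q : ℚ) : M) = 1 := by
  haveI := Fact.mk hp
  have hn0 : q.num.natAbs ≠ 0 := Int.natAbs_ne_zero.2 (Rat.num_ne_zero.2 hq0)
  have hd0 : q.den ≠ 0 := q.den_ne_zero
  rw [padicValRat_def] at hq
  have hnd : ¬ (p ∣ q.num.natAbs ∧ p ∣ q.den) := fun h => by
    have h1 := Nat.dvd_gcd h.1 h.2
    rw [q.reduced] at h1
    exact hp.one_lt.ne' (Nat.dvd_one.1 h1)
  have hv : padicValInt p q.num = padicValNat p q.num.natAbs := rfl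
  have hn : ¬ p ∣ q.num.natAbs := by
    intro h
    have h1 : padicValNat p q.den = 0 := padicValNat.eq_zero_of_not_dvd fun h2 => hnd ⟨h, h2⟩
    have h2 : 1 ≤ padicValNat p q.num.natAbs := one_le_padicValNat_of_dvd hn0 h
    rw [hv, h1] at hq
    omega
  have hd : ¬ p ∣ q.den := by
    intro h
    have h1 : padicValNat p q.num.natAbs = 0 := padicValNat.eq_zero_of_not_dvd hn
    have h2 : 1 ≤ padicValNat p q.den := one_le_padicValNat_of_dvd hd0 h
    rw [hv, h1] at hq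
    omega
  have h1 : w ((q.num.natAbs : ℕ) : M) = 1 := na_unit hna hp hwp hn
  have h2 : w ((q.den : ℕ) : M) = 1 := na_unit hna hp hwp hd
  have h3 : w ((q.num : ℤ) : M) = 1 := by
    rcases Int.natAbs_eq q.num with h | h
    · rw [h, Int.cast_natCast]; exact h1
    · rw [h, Int.cast_neg, Int.cast_natCast, AbsoluteValue.map_neg]; exact h1
  rw [Rat.cast_def, map_div₀, h3, h2, div_one]

theorem na_frob (hna : IsNonarchimedean w) {p : ℕ} (hp : p.Prime) {x y : M} (hx : w x ≤ 1)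
    (hy : w y ≤ 1) : w ((x + y) ^ p - x ^ p - y ^ p) ≤ w (p : M) := by
  rw [add_pow_prime_eq hp]
  have h1 : ∀ S : M, x ^ p + y ^ p + p * x * y * S - x ^ p - y ^ p = p * (x * y * S) := by
    intro S; ring
  rw [h1, map_mul]
  refine mul_le_of_le_one_right (w.nonneg _) ?_
  rw [map_mul, map_mul]
  have h2 : w (∑ k ∈ Finset.Ioo 0 p, x ^ (k - 1) * y ^ (p - k - 1) * ((p.choose k / p : ℕ) : M)) ≤ 1 := by
    refine na_sum hna _ _ zero_le_one fun k _ => ?_
    rw [map_mul, map_mul, map_pow, map_pow]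
    refine mul_le_one₀ (mul_le_one₀ (pow_le_one₀ (w.nonneg _) hx) (by positivity)
      (pow_le_one₀ (w.nonneg _) hy)) (w.nonneg _) (na_nat hna _)
  exact mul_le_one₀ (mul_le_one₀ hx (w.nonneg _) hy) (w.nonneg _) h2

/-- the Frobenius bound for sums -/
theorem na_frb (hna : IsNonarchimedean w) {p : ℕ} (hp : p.Prime) {D : ℝ} (hD : w (p : M) ≤ D)
    {ι : Type*} (s : Finset ι) (u v m : ι → M) (hu : ∀ n ∈ s, w (u n) ≤ 1)
    (hv : ∀ n ∈ s, w (v n - u n ^ p) ≤ D) (hm : ∀ n ∈ s, w (m n) ≤ 1) :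
    w (∑ n ∈ s, u n * m n) ≤ 1 ∧
      w (∑ n ∈ s, v n * m n ^ p - (∑ n ∈ s, u n * m n) ^ p) ≤ D := by
  classical
  have hD0 : 0 ≤ D := (w.nonneg _).trans hD
  induction s using Finset.induction_on with
  | empty =>
    simp only [Finset.sum_empty, zero_pow hp.ne_zero, sub_zero, map_zero]
    exact ⟨zero_le_one, hD0⟩
  | insert i s hi ih =>
    obtain ⟨h1, h2⟩ := ih (fun j hj => hu j (Finset.mem_insert_of_mem hj))
      (fun j hj => hv j (Finset.mem_insert_of_mem hj))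
      (fun j hj => hm j (Finset.mem_insert_of_mem hj))
    have hui := hu i (Finset.mem_insert_self i s)
    have hvi := hv i (Finset.mem_insert_self i s)
    have hmi := hm i (Finset.mem_insert_self i s)
    rw [Finset.sum_insert hi, Finset.sum_insert hi]
    set A := ∑ n ∈ s, v n * m n ^ p
    set B := ∑ n ∈ s, u n * m n
    have h3 : w (u i * m i) ≤ 1 := by
      rw [map_mul]
      exact mul_le_one₀ hui (w.nonneg _) hmi
    refine ⟨na_add hna h3 h1, ?_⟩
    have h4 : v i * m i ^ p + A - (u i * m i + B) ^ p = ((v i - u i ^ p) * m i ^ p + (A - B ^ p)) -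
        ((u i * m i + B) ^ p - (u i * m i) ^ p - B ^ p) := by
      rw [mul_pow]
      ring
    rw [h4]
    refine na_sub hna (na_add hna ?_ h2) ((na_frob hna hp h3 h1).trans hD)
    rw [map_mul, map_pow]
    exact (mul_le_of_le_one_right (w.nonneg _) (pow_le_one₀ (w.nonneg _) hmi)).trans hvi

end na

/-- the Frobenius bound for polynomials -/
theorem cip_frb {K M : Type} [Field K] [Field M] [Algebra K M] {w : AbsoluteValue M ℝ}
    (hna : IsNonarchimedean w) {p : ℕ} (hp : p.Prime) {D : ℝ} (hD : w (p : M) ≤ D)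
    (φ : K ≃+* K) (hφ : ∀ c : K, w (algebraMap K M c) ≤ 1 →
      w (algebraMap K M (φ c - c ^ p)) ≤ D) {σ : Type} (P : σ → M) (hP : ∀ i, w (P i) ≤ 1)
    (G : MvPolynomial σ K) (hG : Itg w G) :
    w (MvPolynomial.aeval P G) ≤ 1 ∧
      w (MvPolynomial.eval₂ ((algebraMap K M).comp (φ : K →+* K)) (fun i => P i ^ p) G -
        (MvPolynomial.aeval P G) ^ p) ≤ D := by
  have h := na_frb hna hp hD G.support (fun n => algebraMap K M (G.coeff n))
    (fun n => algebraMap K M (φ (G.coeff n))) (fun n => ∏ i ∈ n.support, P i ^ n i)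
    (fun n _ => hG n) (fun n _ => by
      rw [← map_pow, ← map_sub]
      exact hφ _ (hG n)) (fun n _ => by
      rw [map_prod]
      refine Finset.prod_le_one (fun i _ => w.nonneg _) fun i _ => ?_
      rw [map_pow]
      exact pow_le_one₀ (w.nonneg _) (hP i))
  have e1 : MvPolynomial.aeval P G =
      ∑ n ∈ G.support, algebraMap K M (G.coeff n) * ∏ i ∈ n.support, P i ^ n i := by
    rw [MvPolynomial.aeval_def, MvPolynomial.eval₂_eq]
  have e2 : MvPolynomial.eval₂ ((algebraMap K M).comp (φ : K →+* K)) (fun i => P i ^ p) G =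
      ∑ n ∈ G.support, algebraMap K M (φ (G.coeff n)) * (∏ i ∈ n.support, P i ^ n i) ^ p := by
    rw [MvPolynomial.eval₂_eq]
    refine Finset.sum_congr rfl fun n _ => ?_
    rw [← Finset.prod_pow]
    congr 1
    refine Finset.prod_congr rfl fun i _ => ?_
    rw [← pow_mul, ← pow_mul, mul_comm]
  rw [e1, e2]
  exact h

theorem cip_main (hMAX : T_MAX) (hCI1 : T_CI1) (hCI2 : T_CI2) (hSHF : T_SHF)
    (K M : Type) [Field K] [NumberField K] [Field M] [NumberField M]
    [Algebra K M] (r : ℕ) (a : Fin r → ℚ) (N : Fin r → ℕ) (θ : Fin r → M) (p : ℕ)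
    (hL : LocD K M a N θ p) (β : M) (hβ : β ≠ 0) (w : FinitePlace M) (hwp : w.1 (p : M) < 1)
    (φ : K ≃+* K) (δ : ℝ) (hδ : 0 < δ) (hδ1 : δ ≤ 1)
    (hφ : ∀ c : K, w.1 (algebraMap K M c) ≤ 1 → w.1 (algebraMap K M (φ c)) ≤ 1 ∧
      w.1 (algebraMap K M (φ c - c ^ p)) ≤ w.1 (p : M) ^ δ)
    (R : ℕ) (nn : Fin R → Fin (r + 1) → ℤ) (x : Fin R → K)
    (hx : ∀ j, w.1 (algebraMap K M (x j)) ≤ 1) (T : ℕ)
    (hJ : ∀ κ : Fin (r + 1) → ℕ, ∑ i, κ i < T → JL θ β nn κ x = 0) (B : ℝ) (hB : 0 < B)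
    (hBn : ∀ j, w.1 (pt θ β (nn j)) ≤ B) (hwβ : w.1 β ≤ 1) (hR : 0 < R) :
    w.1 (∑ j, algebraMap K M (φ (x j)) * pt θ β (nn j) ^ p) ≤ w.1 (p : M) ^ (T * δ) * B ^ p := by
  have hna : IsNonarchimedean w.1 := fun x y => FinitePlace.add_le w x y
  have hp := hL.prime
  have hp0 : 0 < w.1 (p : M) := w.1.pos (by exact_mod_cast hp.ne_zero)
  have hwθ : ∀ i, w.1 (θ i) = 1 := by
    intro i
    have h1 : w.1 (θ i) ^ N i = 1 := by
      rw [← map_pow, hL.pow i]
      exact na_rat hna hp hwp (hL.good.nz i) (hL.unit i)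
    exact (pow_eq_one_iff_of_nonneg (w.1.nonneg _) (hL.good.pos i).ne').1 h1
  have hθ0 : ∀ i, θ i ≠ 0 := fun i h => by
    have := hwθ i
    rw [h, map_zero] at this
    exact zero_ne_one this
  set P : Fin (r + 1) → M := Fin.cons β θ with hP
  have hP1 : ∀ i, w.1 (P i) ≤ 1 := by
    intro i
    refine Fin.cases ?_ (fun j => ?_) i
    · exact hwβ
    · exact (hwθ j).le
  have hc : ∀ i, θ i ^ N i = algebraMap K M (algebraMap ℚ K (a i)) := by
    intro i
    rw [hL.pow i]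
    exact (IsScalarTower.algebraMap_apply ℚ K M (a i))
  obtain ⟨F, j₀, u, -, hF1, hF2, hF3⟩ := hSHF K M r R θ β nn x hR hβ hθ0
  have hFI : Itg w.1 F := hF1 w.1 hna hx
  have hFJ := (hF2 T hJ).1
  obtain ⟨g, hg1, hg2, hg3, hg4⟩ := hCI1 K M w r N (fun i => algebraMap ℚ K (a i)) θ β
    hL.good.pos hc hwθ hL.ind hwβ (fun b hb hb1 => hMAX K M r a N θ p hL w hwp b hb hb1)
  obtain ⟨S, H, hS1, hS2, hH, hSF⟩ := hCI2 K M w r N (fun i => algebraMap ℚ K (a i)) θ β
    hL.good.pos hc hwθ hβ hwβ g hg1 hg2 hg3 hg4 T F hFI hFJ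
  set D : ℝ := w.1 (p : M) ^ δ with hD
  have hD0 : 0 < D := Real.rpow_pos_of_pos hp0 _
  have hD1 : D < 1 := Real.rpow_lt_one hp0.le hwp hδ
  have hpD : w.1 (p : M) ≤ D := by
    have h1 := Real.rpow_le_rpow_of_exponent_ge hp0 hwp.le hδ1
    rwa [Real.rpow_one] at h1
  set Ψ := MvPolynomial.eval₂Hom ((algebraMap K M).comp (φ : K →+* K))
    (fun i => P i ^ p) with hΨ
  have hfrb : ∀ G : MvPolynomial (Fin (r + 1)) K, Itg w.1 G → w.1 (MvPolynomial.aeval P G) ≤ 1 ∧
      w.1 (Ψ G - (MvPolynomial.aeval P G) ^ p) ≤ D := fun G hG =>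
    cip_frb hna hp hpD φ (fun c hc => (hφ c hc).2) P hP1 G hG
  have hΨ1 : ∀ G : MvPolynomial (Fin (r + 1)) K, Itg w.1 G → w.1 (Ψ G) ≤ 1 := by
    intro G hG
    obtain ⟨h1, h2⟩ := hfrb G hG
    have h3 : w.1 ((Ψ G - (MvPolynomial.aeval P G) ^ p) + (MvPolynomial.aeval P G) ^ p) ≤ 1 :=
      na_add hna (h2.trans hD1.le) (by rw [map_pow]; exact pow_le_one₀ (w.1.nonneg _) h1)
    rwa [sub_add_cancel] at h3
  have hΨfam : ∀ i, w.1 (Ψ (fam N (fun i => algebraMap ℚ K (a i)) g i)) ≤ D := by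
    have h0 : ∀ G : MvPolynomial (Fin (r + 1)) K, Itg w.1 G → MvPolynomial.aeval P G = 0 →
        w.1 (Ψ G) ≤ D := by
      intro G hG h0
      have h1 := (hfrb G hG).2
      rwa [h0, zero_pow hp.ne_zero, sub_zero] at h1
    intro i
    refine Fin.cases ?_ (fun j => ?_) i
    · exact h0 g hg1 hg2
    · refine h0 (MvPolynomial.X j.succ ^ N j - MvPolynomial.C (algebraMap ℚ K (a j))) ?_ ?_
      · intro n
        rw [MvPolynomial.coeff_sub, map_sub]
        refine na_sub hna ?_ ?_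
        · rw [MvPolynomial.coeff_X_pow]
          split_ifs <;> simp
        · rw [MvPolynomial.coeff_C]
          split_ifs
          · rw [← hc j, map_pow, hwθ j, one_pow]
          · simp
      · rw [map_sub, map_pow, MvPolynomial.aeval_X, MvPolynomial.aeval_C, sub_eq_zero]
        exact hc j
  have hΨS : w.1 (Ψ S) = 1 := by
    have h1 := (hfrb S hS1).2
    have h2 : w.1 ((MvPolynomial.aeval P S) ^ p) = 1 := by rw [map_pow, hS2, one_pow]
    rw [← h2]
    refine na_eq hna ?_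
    rw [h2]
    exact h1.trans_lt hD1
  have hΨF : w.1 (Ψ F) ≤ D ^ T := by
    have h1 : w.1 (Ψ (S * F)) = w.1 (Ψ F) := by rw [map_mul, map_mul, hΨS, one_mul]
    rw [← h1, hSF, map_sum]
    refine na_sum hna _ _ (pow_nonneg hD0.le _) fun e he => ?_
    rw [map_mul, map_mul, map_prod, map_prod]
    have h2 : ∏ i, w.1 (Ψ (fam N (fun i => algebraMap ℚ K (a i)) g i ^ e i)) ≤ D ^ T := by
      calc ∏ i, w.1 (Ψ (fam N (fun i => algebraMap ℚ K (a i)) g i ^ e i)) ≤ ∏ i, D ^ e i := by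
            refine Finset.prod_le_prod (fun i _ => w.1.nonneg _) fun i _ => ?_
            rw [map_pow, map_pow]
            exact pow_le_pow_left₀ (w.1.nonneg _) (hΨfam i) _
        _ = D ^ ∑ i, e i := Finset.prod_pow_eq_pow_sum _ _ _
        _ = D ^ T := by rw [(Finset.mem_piAntidiag.1 he).1]
    exact (mul_le_of_le_one_right (Finset.prod_nonneg fun i _ => w.1.nonneg _)
      (hΨ1 _ (hH e))).trans h2
  have hmain := hF3 φ p
  set Sg := ∑ j, algebraMap K M (φ (x j)) * pt θ β (nn j) ^ p with hSg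
  set μ := β ^ (-nn j₀ 0) * ∏ i, θ i ^ u i with hμ
  have hwμ : 1 ≤ w.1 μ * B := by
    have h1 : w.1 μ = (w.1 β) ^ (-nn j₀ 0) := by
      rw [hμ, map_mul, map_zpow₀, map_prod]
      have h2 : ∏ i, w.1 (θ i ^ u i) = 1 :=
        Finset.prod_eq_one fun i _ => by rw [map_zpow₀, hwθ i, one_zpow]
      rw [h2, mul_one]
    have h2 : w.1 (pt θ β (nn j₀)) = (w.1 β) ^ (nn j₀ 0) := by
      unfold pt
      rw [map_mul, map_zpow₀, map_prod]
      have h2 : ∏ i : Fin r, w.1 (θ i ^ nn j₀ i.succ) = 1 :=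
        Finset.prod_eq_one fun i _ => by rw [map_zpow₀, hwθ i, one_zpow]
      rw [h2, mul_one]
    have h3 : w.1 μ * w.1 (pt θ β (nn j₀)) = 1 := by
      rw [h1, h2, ← zpow_add₀ (w.1.ne_zero hβ), neg_add_cancel, zpow_zero]
    rw [← h3]
    exact mul_le_mul_of_nonneg_left (hBn j₀) (w.1.nonneg _)
  have h5 : w.1 (Ψ F) = w.1 μ ^ p * w.1 Sg := by
    have h6 : Ψ F = μ ^ p * Sg := hmain
    rw [h6, map_mul, map_pow]
  have h6 : w.1 Sg ≤ w.1 (Ψ F) * B ^ p := by
    rw [h5]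
    have h7 : 1 ≤ (w.1 μ * B) ^ p := one_le_pow₀ hwμ
    calc w.1 Sg = w.1 Sg * 1 := (mul_one _).symm
      _ ≤ w.1 Sg * (w.1 μ * B) ^ p := mul_le_mul_of_nonneg_left h7 (w.1.nonneg _)
      _ = w.1 μ ^ p * w.1 Sg * B ^ p := by rw [mul_pow]; ring
  refine h6.trans ?_
  have h8 : w.1 (p : M) ^ (T * δ) = D ^ T := by
    rw [hD, ← Real.rpow_natCast, ← Real.rpow_mul hp0.le, mul_comm]
  rw [h8]
  exact mul_le_mul_of_nonneg_right hΨF (pow_nonneg hB.le _)

theorem pf_CIP (hMAX : T_MAX) (hCI1 : T_CI1) (hCI2 : T_CI2) (hSHF : T_SHF) : T_CIP := by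
  intro K M _ _ _ _ _ r a N θ p hL β hβ w hwp φ δ hδ hδ1 hφ R nn x hx T hJ B hB hBn
  rcases Nat.eq_zero_or_pos R with hR | hR
  · subst hR
    rw [Finset.univ_eq_empty, Finset.sum_empty, map_zero]
    exact mul_nonneg (Real.rpow_nonneg (w.1.nonneg _) _) (pow_nonneg hB.le _)
  by_cases hwβ : w.1 β ≤ 1
  · exact cip_main hMAX hCI1 hCI2 hSHF K M r a N θ p hL β hβ w hwp φ δ hδ hδ1 hφ R nn x hx T hJ B
      hB hBn hwβ hR
  · set nn' : Fin R → Fin (r + 1) → ℤ := fun j => Fin.cons (-(nn j 0)) (fun i => nn j i.succ)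
      with hnn'
    have hpt : ∀ j, pt θ β⁻¹ (nn' j) = pt θ β (nn j) := by
      intro j
      unfold pt
      simp only [hnn', Fin.cons_zero, Fin.cons_succ]
      rw [zpow_neg, inv_zpow, inv_inv]
    have hjc : ∀ (κ : Fin (r + 1) → ℕ) j, jc M κ (nn' j) = (-1) ^ κ 0 * jc M κ (nn j) := by
      intro κ j
      unfold jc
      rw [Fin.prod_univ_succ, Fin.prod_univ_succ]
      simp only [hnn', Fin.cons_zero, Fin.cons_succ]
      rw [Int.cast_neg, neg_pow]
      ring
    have hJ' : ∀ κ : Fin (r + 1) → ℕ, ∑ i, κ i < T → JL θ β⁻¹ nn' κ x = 0 := by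
      intro κ hκ
      have h1 : JL θ β⁻¹ nn' κ x = (-1) ^ κ 0 * JL θ β nn κ x := by
        unfold JL
        rw [Finset.mul_sum]
        refine Finset.sum_congr rfl fun j _ => ?_
        rw [hpt, hjc]
        ring
      rw [h1, hJ κ hκ, mul_zero]
    have h := cip_main hMAX hCI1 hCI2 hSHF K M r a N θ p hL β⁻¹ (inv_ne_zero hβ) w hwp φ δ hδ hδ1
      hφ R nn' x hx T hJ' B hB (fun j => by rw [hpt]; exact hBn j) (by
        rw [map_inv₀]
        exact inv_le_one_of_one_le₀ (not_le.1 hwβ).le) hR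
    simp only [hpt] at h
    exact h

end Pool.Agent.H46.GG
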