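import Pool.Agent.H64.GG.TC

set_option autoImplicit false

/-!
# Row LVR (board rgd_modules): the theorem over the level fields, reduced numbers
-/

namespace Pool.Agent.H46.GG

open NumberField Height Finset Polynomial Pool.Agent.H24.RD Pool.Agent.H23.RDD Pool.Agent.H29.RQ
  Pool.Agent.H29.SX Pool.Agent.H29.LG Pool.Agent.H64.GG

/-- large primes do not occur in the numbers `a i` -/
theorem lvr_prime {r : ℕ} (a : Fin r → ℚ) : ∃ Y0 : ℕ, ∀ p : ℕ, p.Prime → Y0 < p →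
    ∀ i, padicValRat p (a i) = 0 := by
  refine ⟨∑ i, ((a i).num.natAbs + (a i).den), fun p hp hlt i => ?_⟩
  have h1 : (a i).num.natAbs + (a i).den ≤ ∑ i, ((a i).num.natAbs + (a i).den) :=
    Finset.single_le_sum (f := fun i => (a i).num.natAbs + (a i).den)
      (fun _ _ => Nat.zero_le _) (Finset.mem_univ i)
  by_cases h0 : a i = 0
  · rw [h0]; simp
  have hd : ¬ p ∣ (a i).den := fun h => by
    have := Nat.le_of_dvd (a i).den_pos h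
    omega
  have hn0 : 0 < (a i).num.natAbs := Int.natAbs_pos.2 (Rat.num_ne_zero.2 h0)
  have hn : ¬ (p : ℤ) ∣ (a i).num := fun h => by
    have h2 := Nat.le_of_dvd hn0 (Int.natCast_dvd.1 h)
    omega
  rw [padicValRat_def, padicValInt.eq_zero_of_not_dvd hn, padicValNat.eq_zero_of_not_dvd hd]
  simp

/-- elements with a power in the group of the `θ i` lie in the division group -/
theorem lvr_dv {r : ℕ} {a : Fin r → ℚ} {N : Fin r → ℕ} (hN : ∀ i, 0 < N i) {θ : Fin r → Om}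
    (hθ : ∀ i, θ i ^ N i = algebraMap ℚ Om (a i)) {g : Om} (hg : g ≠ 0) {k : ℕ} (hk : 0 < k)
    {x : Fin r → ℤ} (h : g ^ k = ∏ i, θ i ^ x i) : g ∈ Dv ℚ Om a := by
  set P := ∏ i, N i with hP
  have hP0 : 0 < P := Finset.prod_pos fun i _ => hN i
  refine ⟨hg, k * P, Nat.mul_pos hk hP0, fun i => x i * ((P / N i : ℕ) : ℤ), ?_⟩
  rw [pow_mul, h, ← Finset.prod_pow]
  refine Finset.prod_congr rfl fun i _ => ?_
  have h1 : P = N i * (P / N i) := (Nat.mul_div_cancel' (Finset.dvd_prod_of_mem N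
    (Finset.mem_univ i))).symm
  have h2 : x i * (P : ℤ) = (N i : ℤ) * (x i * ((P / N i : ℕ) : ℤ)) := by
    conv_lhs => rw [h1]
    push_cast
    ring
  rw [← zpow_natCast, ← zpow_mul, h2, zpow_mul, zpow_natCast, hθ]

theorem lvr_cy {m m' : ℕ} (h : m ∣ m') : CY m ≤ CY m' := by
  unfold CY
  refine IntermediateField.adjoin.mono ℚ _ _ fun z hz => ?_
  obtain ⟨c, rfl⟩ := h
  show z ^ (m * c) = 1
  rw [pow_mul, show z ^ m = 1 from hz, one_pow]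

theorem pf_LVR (hSTG : T_STG) (hFROG : T_FROG) (hRNKG : T_RNKG) (hINQ : T_INQ) (hNUG : T_NUG)
    (hPRMS : Pool.Agent.H29.LG.T_PRMS) (hCNV : T_CNV) (hHB : Pool.Agent.H24.RD.T_HB) : T_LVR := by
  classical
  intro r a hγ
  have hAlg : Algebra.IsAlgebraic ℚ Om := AlgebraicClosure.isAlgebraic ℚ
  obtain ⟨hnn, -, -, -, -, -, htor⟩ := hHB Om
  obtain ⟨Y0, hY0⟩ := lvr_prime a
  obtain ⟨CP, hCP⟩ := hPRMS
  obtain ⟨cv, hcv, hcnt⟩ := hCNV r
  have hBB : ∀ i, 1 ≤ BB (a i) := fun i => by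
    unfold BB
    linarith [hnn (algebraMap ℚ Om (a i))]
  have hBB0 : ∀ i, 0 < BB (a i) := fun i => lt_of_lt_of_le one_pos (hBB i)
  have hPB : 0 < ∏ i, BB (a i) := Finset.prod_pos fun i _ => hBB0 i
  obtain ⟨B, hB1, hBs⟩ : ∃ B : ℝ, 1 ≤ B ∧ ∑ i, BB (a i) ≤ B :=
    ⟨max 1 (∑ i, BB (a i)), le_max_left _ _, le_max_right _ _⟩
  obtain ⟨c, C, hc, hnum⟩ := hNUG r CP Y0 B (cv / ∏ i, BB (a i)) hB1 (div_pos hcv hPB)
  refine ⟨c, C, hc, ?_⟩
  intro N hgood θ hθ m d α hm hd hcop hrep hα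
  have hN : ∀ i, 0 < N i := hgood.pos
  -- the least number of conjugates
  have hP : ∃ D' : ℕ, ∃ m₁ : ℕ, 0 < m₁ ∧ (∀ i, m₁.Coprime (N i)) ∧ RepQ a θ m₁ D' α :=
    ⟨d, m, hm, hcop, hrep⟩
  obtain ⟨D, hDdef⟩ : ∃ D : ℕ, D = Nat.find hP := ⟨_, rfl⟩
  have hDs : ∃ m₁ : ℕ, 0 < m₁ ∧ (∀ i, m₁.Coprime (N i)) ∧ RepQ a θ m₁ D α := by
    rw [hDdef]
    exact Nat.find_spec hP
  have hDmin : ∀ m₁ d₁ : ℕ, 0 < m₁ → (∀ i, m₁.Coprime (N i)) → RepQ a θ m₁ d₁ α → D ≤ d₁ := by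
    intro m₁ d₁ hm₁ hc₁ h
    rw [hDdef]
    exact Nat.find_min' hP ⟨m₁, hm₁, hc₁, h⟩
  have hDd : D ≤ d := hDmin m d hm hcop hrep
  obtain ⟨m1, hm1, hcop1, hrep1⟩ := hDs
  have hD : 0 < D := by
    rcases Nat.eq_zero_or_pos D with h0 | h0
    · exfalso
      obtain ⟨β, -, ⟨s, hs, hs'⟩, -⟩ := hrep1
      have h3 := hs' AlgEquiv.refl (fun z _ => rfl)
      rw [h0, Nat.le_zero, Finset.card_eq_zero] at hs
      rw [hs] at h3
      exact absurd h3 (Finset.notMem_empty _)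
    · exact h0
  have hα0 : α ≠ 0 := by
    obtain ⟨β, hβ, -, -, g, hg, h⟩ := hrep1
    rw [h]
    exact mul_ne_zero hβ hg.1
  obtain ⟨lam, hlamd⟩ : ∃ lam : ℝ, lam = absLogHeight₁ α := ⟨_, rfl⟩
  have hlam : 0 < lam := by
    rw [hlamd]
    rcases (hnn α).lt_or_eq with h | h
    · exact h
    · exfalso
      obtain ⟨n, hn, hn1⟩ := htor α hα0 h.symm
      refine hα ⟨hα0, n, hn, 0, ?_⟩
      rw [hn1]
      simp
  have hD1 : (1 : ℝ) ≤ (D : ℝ) := by exact_mod_cast hD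
  have hDd' : (D : ℝ) ≤ (d : ℝ) := by exact_mod_cast hDd
  by_contra hcon
  rw [not_le, ← hlamd] at hcon
  have hlog0 : 0 ≤ Real.log (3 * D) := Real.log_nonneg (by linarith)
  have hlog1 : Real.log (3 * D) ≤ Real.log (3 * d) :=
    Real.log_le_log (by linarith) (by linarith)
  have hlt : lam * D * (Real.log (3 * D)) ^ C < c := by
    refine lt_of_le_of_lt ?_ hcon
    have e1 : lam * D ≤ lam * d := mul_le_mul_of_nonneg_left hDd' hlam.le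
    have e2 : (Real.log (3 * D)) ^ C ≤ (Real.log (3 * d)) ^ C :=
      pow_le_pow_left₀ hlog0 hlog1 C
    exact mul_le_mul e1 e2 (pow_nonneg hlog0 C) (by positivity)
  obtain ⟨s, t, A, n, σ, ρ, Q, G, hs, ht, hσ, hρ, hρ1, hQ1, hY0A, h8A, hsn, hprime, hσρ, hcount,
    hGpos, hlast⟩ := hnum D lam hD hlam hlt
  -- the primes
  obtain ⟨P0, hP0c, hP0⟩ := hCP A n
  have hP0v : ∀ p ∈ P0, ∀ i, padicValRat p (a i) = 0 := fun p hp =>
    hY0 p (hP0 p hp).1 (lt_of_le_of_lt hY0A (hP0 p hp).2.1)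
  obtain ⟨m₀, m₃, k, K, β, g, x, B0, hm₀, hm₃, hm03, hcop0, hK, hβ, hg, hαβ, hk, hpow, hx, hX,
    hB0, hB0m, hInd, hSame, hRam⟩ := hSTG r a N hgood θ hθ m1 D α hm1 hD hcop1 hrep1 hDmin P0
      (fun p hp => by
        obtain ⟨e1, e2, -, -⟩ := hprime p (hP0 p hp).2.1 (hP0 p hp).2.2
        refine ⟨(hP0 p hp).1, hP0v p hp, e1, ?_⟩
        rw [← hlamd]
        exact e2)
  have hs1 : s ≤ (P0 \ B0).card := by
    have h1 := Finset.le_card_sdiff B0 P0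
    omega
  obtain ⟨P, hPs, hPc⟩ := Finset.exists_subset_card_eq hs1
  have hPp : ∀ p ∈ P, p.Prime ∧ A < p ∧ p ≤ CP * (A + n + 1) ^ 2 ∧ p ∣ m₃ ∧ p ∈ P0 := by
    intro p hp
    have h := Finset.mem_sdiff.1 (hPs hp)
    exact ⟨(hP0 p h.1).1, (hP0 p h.1).2.1, (hP0 p h.1).2.2, hB0m p h.1 h.2, h.1⟩
  have hdl1 : ∀ p ∈ P, 0 < dlt D p ∧ dlt D p ≤ 1 := by
    intro p hp
    have hpp := (hPp p hp).1
    have hp1 : (2 : ℝ) ≤ (p : ℝ) := by exact_mod_cast hpp.two_le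
    have hlp : 0 < Real.log p := Real.log_pos (by linarith)
    have hlDp : 0 ≤ Real.log (D * p) := Real.log_nonneg (by nlinarith)
    unfold dlt
    have hden : 0 < 2 * Real.log (D * p) + 1 + Real.log p := by linarith
    refine ⟨div_pos hlp hden, ?_⟩
    rw [div_le_one hden]
    linarith
  have hfro : ∀ p ∈ P, ∃ Φ : Om ≃ₐ[ℚ] Om, FrQ K p (dlt D p) Φ := fun p hp =>
    hFROG K m₀ p (dlt D p) hm₀ hK (hPp p hp).1 (hdl1 p hp).1 (hdl1 p hp).2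
      (hRam p (hPp p hp).2.2.2.2)
  -- enumeration
  obtain ⟨Φp, hΦp⟩ : ∃ Φp : ℕ → Om ≃ₐ[ℚ] Om, ∀ p ∈ P, FrQ K p (dlt D p) (Φp p) := by
    refine ⟨fun p => if hp : p ∈ P then (hfro p hp).choose else AlgEquiv.refl, ?_⟩
    intro p hp
    simp only [dif_pos hp]
    exact (hfro p hp).choose_spec
  obtain ⟨pr, hpr0, hprP, hprm⟩ : ∃ pr : ℕ → ℕ, pr 0 = 1 ∧ (∀ c, 1 ≤ c → c ≤ s → pr c ∈ P) ∧
      ∀ c₁ c₂, 1 ≤ c₁ → c₁ < c₂ → c₂ ≤ s → pr c₁ < pr c₂ := by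
    refine ⟨fun c => if c = 0 then 1 else
      if h : c - 1 < s then P.orderEmbOfFin hPc ⟨c - 1, h⟩ else 0, ?_, ?_, ?_⟩
    · simp
    · intro c hc hcs
      have h : c - 1 < s := by omega
      have h0 : ¬ c = 0 := by omega
      simp only [if_neg h0, dif_pos h]
      exact Finset.orderEmbOfFin_mem P hPc _
    · intro c₁ c₂ hc₁ hc₁₂ hc₂
      have e1 : c₁ - 1 < s := by omega
      have e2 : c₂ - 1 < s := by omega
      have e3 : ¬ c₁ = 0 := by omega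
      have e4 : ¬ c₂ = 0 := by omega
      simp only [if_neg e3, if_neg e4, dif_pos e1, dif_pos e2]
      exact (P.orderEmbOfFin hPc).strictMono (Fin.mk_lt_mk.2 (by omega))
  obtain ⟨Φ, hΦd⟩ : ∃ Φ : ℕ → Om ≃ₐ[ℚ] Om,
      Φ = fun c => if c = 0 then AlgEquiv.refl else Φp (pr c) := ⟨_, rfl⟩
  have hΦ0 : ∀ z, Φ 0 z = z := by
    intro z
    rw [hΦd]
    simp
  have hΦc : ∀ c, 1 ≤ c → Φ c = Φp (pr c) := by
    intro c hc
    rw [hΦd]
    simp only [if_neg (by omega : ¬ c = 0)]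
  -- the points
  have hNr : ∀ i, (0 : ℝ) < N i := fun i => by exact_mod_cast hN i
  have hH : ∀ i, 0 < BB (a i) / N i := fun i => div_pos (hBB0 i) (hNr i)
  obtain ⟨S, hS, hScard⟩ := hcnt lam σ (fun i => BB (a i) / N i) (fun i => (x i : ℝ) / k) hlam
    hH hσ
  have hNS : (∏ i, N i) * D < S.card := by
    have h3 : 0 < ∏ i, (N i : ℝ) := Finset.prod_pos fun i _ => hNr i
    have h1 : cv * σ ^ (r + 1) / (lam * ∏ i, BB (a i) / (N i : ℝ)) =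
        (∏ i, (N i : ℝ)) * ((cv / ∏ i, BB (a i)) * σ ^ (r + 1) / lam) := by
      rw [Finset.prod_div_distrib]
      field_simp
    rw [h1] at hScard
    have h4 : (∏ i, (N i : ℝ)) * D <
        (∏ i, (N i : ℝ)) * ((cv / ∏ i, BB (a i)) * σ ^ (r + 1) / lam) :=
      mul_lt_mul_of_pos_left hcount h3
    have h5 : (∏ i, (N i : ℝ)) * D < S.card := h4.trans_le hScard
    exact_mod_cast h5
  have hgD : g ∈ Dv ℚ Om a := lvr_dv hN hθ hg hk hpow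
  have hKm : K ≤ CY m₃ := hK.trans (lvr_cy hm03)
  have hXm : ∃ X : Finset Om, X.card ≤ D ∧ ∀ σ : Om ≃ₐ[ℚ] Om, (∀ z ∈ CY m₃, σ z = z) →
      (∀ i, σ (θ i) = θ i) → σ β ∈ X := by
    obtain ⟨X, hX1, hX2⟩ := hX
    exact ⟨X, hX1, fun τ h1 h2 => hX2 τ (fun z hz => h1 z (hKm hz)) h2⟩
  have hprQ : ∀ c, 1 ≤ c → c ≤ s → (pr c : ℝ) ≤ Q := fun c hc hcs => by
    have hp := hPp _ (hprP c hc hcs)
    exact (hprime _ hp.2.1 hp.2.2.1).2.2.1
  obtain ⟨R, d0, r0, nn, hr0, hd0, hR, -, hnn', hCols⟩ := hRNKG r a N θ β g m₃ D hγ hN hθ hβ hgD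
    (by rw [← hαβ]; exact hα) hm₃ hXm s t pr Φ ht hΦ0 hpr0
    (fun c hc hcs => by
      have hp := hPp _ (hprP c hc hcs)
      exact ⟨hp.1, by omega, hp.2.2.2.1⟩) hprm lam (fun i => BB (a i) / N i)
    (fun i => (x i : ℝ) / k) hlam hH Q ρ σ hQ1 hσ.le hprQ hσρ S hS hNS
  have hR0 : 0 < R := by
    have : 1 ≤ s * r0 := Nat.mul_pos hs hr0
    omega
  have hd0R : d0 ≤ R := by omega
  have hineq := hINQ r a N hgood θ hθ m₀ m₃ D k K β g x hm₀ hm₃ hm03 hcop0 hK hD hβ hg hk hpow hx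
    hX hInd hSame (by rw [← hαβ, ← hlamd]; exact hlam) s t R d0 pr Φ (fun c => dlt D (pr c)) ht
    hΦ0 hpr0 (fun c hc hcs => by
      have hpP := hprP c hc hcs
      have hp := hPp _ hpP
      refine ⟨hp.1, hP0v _ hp.2.2.2.2, (hdl1 _ hpP).1, (hdl1 _ hpP).2, ?_⟩
      rw [hΦc c hc]
      exact hΦp _ hpP) nn Q ρ G hR0 hd0R hρ.le hρ1 hQ1
    (by rw [← hαβ, ← hlamd]; exact hnn') hCols
    (fun c hc hcs => by
      have hp := hPp _ (hprP c hc hcs)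
      exact ⟨hprQ c hc hcs, (hprime _ hp.2.1 hp.2.2.1).2.2.2⟩) hGpos
  rw [← hαβ, ← hlamd] at hineq
  have hfin := hlast R d0 r0 hr0 hd0 hR
  have hRB : (R : ℝ) * (2 * (r + 1) * ∑ i, BB (a i)) ≤ R * (2 * (r + 1) * B) := by
    refine mul_le_mul_of_nonneg_left (mul_le_mul_of_nonneg_left hBs ?_) ?_ <;> positivity
  have e1 : (R : ℝ) * (Real.log ((t ^ (r + 1) + s) * D) / 2 +
      2 * (r + 1) * (D * lam + ∑ i, BB (a i))) = R * (Real.log ((t ^ (r + 1) + s) * D) / 2 +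
      2 * (r + 1) * (D * lam)) + R * (2 * (r + 1) * ∑ i, BB (a i)) := by ring
  have e2 : (R : ℝ) * (Real.log ((t ^ (r + 1) + s) * D) / 2 +
      2 * (r + 1) * (D * lam + B)) = R * (Real.log ((t ^ (r + 1) + s) * D) / 2 +
      2 * (r + 1) * (D * lam)) + R * (2 * (r + 1) * B) := by ring
  rw [e1] at hineq
  rw [e2] at hfin
  linarith

end Pool.Agent.H46.GG
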